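import Pool.Agent.Lib.MP_106cb8_an.Wit

set_option autoImplicit false

open Set Filter Topology
open scoped ENNReal

namespace Pool.Agent.Results.MP_106cb8_an.NotRegular

section Defs

variable {X : Type*} [AddCommGroup X] [Module ℝ X]

/-- `ρ` is a convex modular on the real vector space `X`. -/
def IsConvexModular (ρ : X → ℝ≥0∞) : Prop :=
  (∀ u : X, ρ u = 0 ↔ u = 0) ∧
  (∀ (α : ℝ) (u : X), |α| = 1 → ρ (α • u) = ρ u) ∧
  (∀ (α : ℝ) (u v : X), 0 ≤ α → α ≤ 1 →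
    ρ (α • u + (1 - α) • v) ≤ ENNReal.ofReal α * ρ u + ENNReal.ofReal (1 - α) * ρ v)

/-- `ρ` is left-continuous. -/
def IsLeftContinuous (ρ : X → ℝ≥0∞) : Prop :=
  ∀ (u : X) (l₀ : ℝ), 0 < l₀ → Tendsto (fun l : ℝ => ρ (l • u)) (𝓝[<] l₀) (𝓝 (ρ (l₀ • u)))

/-- The modular space `X_ρ`. -/
def modularSpace (ρ : X → ℝ≥0∞) : Set X := {v | ∃ l : ℝ, 0 < l ∧ ρ (l • v) < ⊤}

/-- `C` is a `ρ`-closed subset of the modular space. -/
def IsModClosed (ρ : X → ℝ≥0∞) (C : Set X) : Prop :=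
  C ⊆ modularSpace ρ ∧ ∀ (x : ℕ → X) (y : X), (∀ j, x j ∈ C) → y ∈ modularSpace ρ →
    Tendsto (fun j => ρ (x j - y)) atTop (𝓝 0) → y ∈ C

/-- `U` is an open subset of the modular space for the modular topology. -/
def IsModOpen (ρ : X → ℝ≥0∞) (U : Set X) : Prop :=
  U ⊆ modularSpace ρ ∧ IsModClosed ρ (modularSpace ρ \ U)

end Defs

/-- There is a convex, left-continuous modular on a real vector space whose modular topology is
not regular. -/
theorem result : ∃ (X : Type) (_ : AddCommGroup X) (_ : Module ℝ X) (ρ : X → ℝ≥0∞),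
    IsConvexModular ρ ∧ IsLeftContinuous ρ ∧
      ∃ (F : Set X) (x : X), IsModClosed ρ F ∧ x ∈ modularSpace ρ ∧ x ∉ F ∧
        ∀ U V : Set X, IsModOpen ρ U → IsModOpen ρ V → x ∈ U → F ⊆ V → (U ∩ V).Nonempty :=
  ⟨ℕ → ℝ, inferInstance, inferInstance, _,
    Pool.Agent.Lib.MP_106cb8_an.witness (fun n => n + 1)
      (fun n => le_add_of_nonneg_left n.cast_nonneg) fun ⟨B, hB⟩ =>
        (exists_nat_gt B).elim fun n hn => by linarith [hB ⟨n, rfl⟩]⟩

end Pool.Agent.Results.MP_106cb8_an.NotRegular
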