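import Pool.Agent.Lib.MP_106cb8_an.RegMod

set_option autoImplicit false

open Set Filter Topology
open scoped ENNReal

namespace Pool.Agent.Results.MP_106cb8_an.RegularNoDelta

section Defs

variable {X : Type*} [AddCommGroup X] [Module ℝ X]

/-- `ρ` is a convex modular on the real vector space `X`. -/
def IsConvexModular (ρ : X → ℝ≥0∞) : Prop :=
  (∀ u : X, ρ u = 0 ↔ u = 0) ∧
  (∀ (α : ℝ) (u : X), |α| = 1 → ρ (α • u) = ρ u) ∧
  (∀ (α : ℝ) (u v : X), 0 ≤ α → α ≤ 1 →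
    ρ (α • u + (1 - α) • v) ≤ ENNReal.ofReal α * ρ u + ENNReal.ofReal (1 - α) * ρ v)

/-- `ρ` is left-continuous. -/
def IsLeftContinuous (ρ : X → ℝ≥0∞) : Prop :=
  ∀ (u : X) (l₀ : ℝ), 0 < l₀ → Tendsto (fun l : ℝ => ρ (l • u)) (𝓝[<] l₀) (𝓝 (ρ (l₀ • u)))

/-- The modular space `X_ρ`. -/
def modularSpace (ρ : X → ℝ≥0∞) : Set X := {v | ∃ l : ℝ, 0 < l ∧ ρ (l • v) < ⊤}

/-- `C` is a `ρ`-closed subset of the modular space. -/
def IsModClosed (ρ : X → ℝ≥0∞) (C : Set X) : Prop :=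
  C ⊆ modularSpace ρ ∧ ∀ (x : ℕ → X) (y : X), (∀ j, x j ∈ C) → y ∈ modularSpace ρ →
    Tendsto (fun j => ρ (x j - y)) atTop (𝓝 0) → y ∈ C

/-- `U` is an open subset of the modular space for the modular topology. -/
def IsModOpen (ρ : X → ℝ≥0∞) (U : Set X) : Prop :=
  U ⊆ modularSpace ρ ∧ IsModClosed ρ (modularSpace ρ \ U)

end Defs

open Pool.Agent.Lib.MP_106cb8_an.Reg in
/-- A family of modulars without the doubling property whose modular topology is regular. -/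
theorem result (E : Type*) [NormedAddCommGroup E] [NormedSpace ℝ E] (P : ℕ → E →L[ℝ] E)
    (h0 : P 0 = 0) (h1 : ∀ n x, ‖P n x‖ ≤ ‖x‖) (h2 : ∀ n m x, P n (P m x) = P (min n m) x)
    (h3 : ∀ x, Tendsto (fun n => P n x) atTop (𝓝 x)) (h4 : ∀ n, ∃ x, x ≠ 0 ∧ P n x = 0)
    (ρ : E → ℝ≥0∞)
    (hρ : ∀ x, ρ x = ENNReal.ofReal (∑' n, ‖P n x‖ / 2 ^ n + max (‖x‖ - 1) 0)) :
    IsConvexModular ρ ∧ IsLeftContinuous ρ ∧
      (∃ x : ℕ → E, Tendsto (fun j => ρ (x j)) atTop (𝓝 0) ∧ ∀ j, 1 ≤ ρ ((2 : ℝ) • x j)) ∧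
      ∀ (F : Set E) (x : E), IsModClosed ρ F → x ∈ modularSpace ρ → x ∉ F →
        ∃ U V : Set E, IsModOpen ρ U ∧ IsModOpen ρ V ∧ x ∈ U ∧ F ⊆ V ∧ Disjoint U V := by
  have hP : Proj P := ⟨h0, h1, h2, h3⟩
  obtain rfl : ρ = fun x => ENNReal.ofReal (r P x) := funext hρ
  have hs : ∀ x, x ∈ modularSpace fun x => ENNReal.ofReal (r P x) :=
    fun x => ⟨1, one_pos, ENNReal.ofReal_lt_top⟩
  have ht : ∀ z : ℕ → E, Tendsto (fun j => ENNReal.ofReal (r P (z j))) atTop (𝓝 0) ↔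
      Tendsto (fun j => r P (z j)) atTop (𝓝 0) := fun z => by
    refine ⟨fun h => ?_, fun h => by simpa using ENNReal.tendsto_ofReal h⟩
    simpa [ENNReal.toReal_ofReal (r_nonneg _), Function.comp_def] using
      (ENNReal.tendsto_toReal ENNReal.zero_ne_top).comp h
  have ho : ∀ U, Op P U → IsModOpen (fun x => ENNReal.ofReal (r P x)) U := fun U h =>
    ⟨fun x _ => hs x, fun x _ => hs x, fun x y a b c =>
      ⟨b, (op_iff hP U).1 h x y (fun j => (a j).2) ((ht _).1 c)⟩⟩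
  refine ⟨⟨fun u => ENNReal.ofReal_eq_zero.trans (r_eq_zero hP u), fun α u h => by
    simp only [r_smul h], fun α u v a b => ?_⟩, fun u l _ => ?_, ?_, fun F x hF _ hx => ?_⟩
  · rw [← ENNReal.ofReal_mul a, ← ENNReal.ofReal_mul (sub_nonneg.2 b), ← ENNReal.ofReal_add
      (mul_nonneg a (r_nonneg _)) (mul_nonneg (sub_nonneg.2 b) (r_nonneg _))]
    exact ENNReal.ofReal_le_ofReal (r_convex hP a b u v)
  · exact ((ENNReal.continuous_ofReal.comp (r_cont u)).tendsto l).mono_left nhdsWithin_le_nhds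
  · obtain ⟨x, a, b⟩ := no_delta hP h4
    exact ⟨x, (ht x).2 a, fun j => ENNReal.one_le_ofReal.2 (b j)⟩
  · obtain ⟨U, V, a, b, c, e, f⟩ := regular hP ((op_iff hP Fᶜ).2 fun z y g h =>
      not_not.2 (hF.2 z y (fun j => not_not.1 (g j)) (hs y) ((ht _).2 h))) hx
    exact ⟨U, V, ho U a, ho V b, c, by simpa using e, f⟩

end Pool.Agent.Results.MP_106cb8_an.RegularNoDelta
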